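import Pool.Agent.V11293.DH.Free

set_option autoImplicit false

namespace Pool.Agent.Results.MP_0380a0_co.UniversalVertexTransitive

open SimpleGraph

/-- A graph is distance-hereditary if for every connected induced subgraph and all vertices `u`, `v`
of it, the distance of `u` and `v` in the induced subgraph is their distance in the graph. -/
def DistanceHereditary {V : Type} (G : SimpleGraph V) : Prop :=
  ∀ s : Set V, (G.induce s).Connected →
    ∀ u v : s, (G.induce s).edist u v = G.edist (u : V) (v : V)

/-- A vertex-transitive graph. -/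
def VertexTransitive {V : Type} (G : SimpleGraph V) : Prop :=
  ∀ x y : V, ∃ f : G ≃g G, f x = y

/-- There is a countable graph which is distance-hereditary, contains every countable
distance-hereditary graph as an induced subgraph, and is vertex-transitive. -/
theorem result :
    ∃ (W : Type) (_ : Countable W) (U : SimpleGraph W),
      DistanceHereditary U ∧
      (∀ (V : Type) [Countable V] (G : SimpleGraph V), DistanceHereditary G → Nonempty (G ↪g U)) ∧
      VertexTransitive U := by
  classical
  let T := Pool.Agent.V11293.DH.treeG Pool.Agent.V11293.DH.qcol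
  have hT : Pool.Agent.V11293.DH.DHW T := Pool.Agent.V11293.DH.treeG_dhw
  have hcount : Countable (FreeGroup (Finset Pool.Agent.V11293.DH.QL)) := by
    have hQ : Countable Pool.Agent.V11293.DH.QL := inferInstanceAs (Countable (ℚ × Fin 3))
    exact (FreeGroup.toWord_injective
      (α := Finset Pool.Agent.V11293.DH.QL)).countable
  refine ⟨FreeGroup (Finset Pool.Agent.V11293.DH.QL), hcount, Pool.Agent.V11293.DH.freeG T,
    (Pool.Agent.V11293.DH.free_dhw hT).dh, ?_, ?_⟩
  · intro V _ G hG
    obtain ⟨f⟩ := Pool.Agent.V11293.DH.univ_embed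
      (Pool.Agent.V11293.DH.DistanceHereditary.dhw (G := G) hG)
    have g : T ↪g Pool.Agent.V11293.DH.freeG T :=
      ⟨⟨FreeGroup.of, FreeGroup.of_injective⟩, Pool.Agent.V11293.DH.free_adj_of⟩
    exact ⟨g.comp f⟩
  · intro x y
    refine ⟨⟨Equiv.mulRight (x⁻¹ * y), ?_⟩, ?_⟩
    · intro a b
      exact Pool.Agent.V11293.DH.free_adj_mul (x⁻¹ * y)
    · change x * (x⁻¹ * y) = y
      group

end Pool.Agent.Results.MP_0380a0_co.UniversalVertexTransitive
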